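import Pool.Agent.W229.HD.Stm

set_option autoImplicit false

/-!
# A scalar Gronwall inequality
-/

namespace Pool.Agent.W460.HD

open Pool.Agent.W229.HD
open Set Filter Topology MeasureTheory

theorem anti (f f' : ℝ → ℝ) (h : ∀ t, 0 ≤ t → HasDerivWithinAt f (f' t) (Ici 0) t)
    (h' : ∀ t, 0 ≤ t → f' t ≤ 0) (t : ℝ) (ht : 0 ≤ t) : f t ≤ f 0 := by
  have hd : ∀ x ∈ interior (Ici (0 : ℝ)), HasDerivAt f (f' x) x := by
    intro x hx
    rw [interior_Ici, mem_Ioi] at hx
    exact (h x hx.le).hasDerivAt (Ici_mem_nhds hx)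
  have := antitoneOn_of_deriv_nonpos (convex_Ici 0)
    (fun x hx => (h x hx).continuousWithinAt)
    (fun x hx => (hd x hx).differentiableAt.differentiableWithinAt)
    (fun x hx => by
      rw [(hd x hx).deriv]
      rw [interior_Ici, mem_Ioi] at hx
      exact h' x hx.le)
  exact this (mem_Ici.2 le_rfl) (mem_Ici.2 ht) ht

/-- primitives of functions continuous on the half line -/
theorem prim (g : ℝ → ℝ) (hg : ContinuousOn g (Ici 0)) (t : ℝ) (ht : 0 ≤ t) :
    HasDerivWithinAt (fun s => ∫ τ in (0 : ℝ)..s, g τ) (g t) (Ici 0) t := by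
  have hc : Continuous fun s => g (max s 0) := by
    exact hg.comp_continuous (by fun_prop) fun s => mem_Ici.2 (le_max_right _ _)
  have h1 : HasDerivAt (fun s => ∫ τ in (0 : ℝ)..s, g (max τ 0)) (g (max t 0)) t :=
    intervalIntegral.integral_hasDerivAt_right (hc.intervalIntegrable _ _)
      (hc.stronglyMeasurableAtFilter _ _) hc.continuousAt
  rw [max_eq_left ht] at h1
  refine h1.hasDerivWithinAt.congr (fun s hs => ?_) ?_
  · refine intervalIntegral.integral_congr fun τ hτ => ?_
    rw [uIcc_of_le (mem_Ici.1 hs)] at hτ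
    rw [max_eq_left hτ.1]
  · refine intervalIntegral.integral_congr fun τ hτ => ?_
    rw [uIcc_of_le ht] at hτ
    rw [max_eq_left hτ.1]

theorem intble (g : ℝ → ℝ) (hg : ContinuousOn g (Ici 0)) (t : ℝ) (ht : 0 ≤ t) :
    IntervalIntegrable g volume 0 t :=
  (hg.mono (by rw [uIcc_of_le ht]; exact Icc_subset_Ici_self)).intervalIntegrable

/-- GRON: a scalar inequality -/
theorem gron : S_GRON := by
  intro ν c G y z g d hν hc hG hpos hz hg hy hd hint
  obtain ⟨K, hK⟩ : ∃ K, K = c ^ 2 / ν := ⟨_, rfl⟩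
  have hK0 : 0 ≤ K := by rw [hK]; positivity
  have hKG : c ^ 2 * G / ν = K * G := by rw [hK]; ring
  have hyc : ContinuousOn y (Ici 0) := fun t ht => (hy t ht).continuousWithinAt
  -- the differential inequality
  have hdi : ∀ t, 0 ≤ t → d t ≤ -ν * z t + K * (g t * y t) := by
    intro t ht
    obtain ⟨h1, h2, h3⟩ := hpos t ht
    have h4 := hd t ht
    have hs := Real.sq_sqrt (mul_nonneg (mul_nonneg h2 h3) h1)
    have hs0 := Real.sqrt_nonneg (z t * g t * y t)
    have h5 : 2 * c * ν * Real.sqrt (z t * g t * y t) ≤ ν ^ 2 * z t + c ^ 2 * (g t * y t) := by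
      refine (le_abs_self _).trans (abs_le_of_sq_le_sq ?_ (by positivity))
      have : (2 * c * ν * Real.sqrt (z t * g t * y t)) ^ 2 =
          4 * c ^ 2 * ν ^ 2 * (z t * g t * y t) := by
        rw [mul_pow, hs]
        ring
      rw [this]
      nlinarith [sq_nonneg (ν ^ 2 * z t - c ^ 2 * (g t * y t))]
    have h6 : 2 * c * Real.sqrt (z t * g t * y t) ≤ ν * z t + K * (g t * y t) := by
      have e1 : 2 * c * Real.sqrt (z t * g t * y t) =
          (2 * c * ν * Real.sqrt (z t * g t * y t)) / ν := by field_simp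
      have e2 : ν * z t + K * (g t * y t) = (ν ^ 2 * z t + c ^ 2 * (g t * y t)) / ν := by
        rw [hK]
        field_simp
      rw [e1, e2]
      exact div_le_div_of_nonneg_right h5 hν.le
    linarith
  -- first bound
  have hfirst : ∀ t, 0 ≤ t → y t ≤ y 0 * Real.exp (K * G) := by
    intro t ht
    have h1 := anti (fun t => y t * Real.exp (-K * ∫ τ in (0 : ℝ)..t, g τ))
      (fun t => d t * Real.exp (-K * ∫ τ in (0 : ℝ)..t, g τ) +
        y t * (Real.exp (-K * ∫ τ in (0 : ℝ)..t, g τ) * (-K * g t)))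
      (fun s hs => (hy s hs).mul (((prim g hg s hs).const_mul (-K)).exp))
      (fun s hs => by
        have h2 := hdi s hs
        have h3 := (hpos s hs).2.1
        have h4 := Real.exp_pos (-K * ∫ τ in (0 : ℝ)..s, g τ)
        have h5 : d s + y s * (-K * g s) ≤ 0 := by nlinarith
        have h6 : d s * Real.exp (-K * ∫ τ in (0 : ℝ)..s, g τ) +
            y s * (Real.exp (-K * ∫ τ in (0 : ℝ)..s, g τ) * (-K * g s)) =
            (d s + y s * (-K * g s)) * Real.exp (-K * ∫ τ in (0 : ℝ)..s, g τ) := by ring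
        rw [h6]
        exact mul_nonpos_of_nonpos_of_nonneg h5 h4.le) t ht
    simp only [intervalIntegral.integral_same, mul_zero, Real.exp_zero, mul_one] at h1
    have h7 : y t = y t * Real.exp (-K * ∫ τ in (0 : ℝ)..t, g τ) *
        Real.exp (K * ∫ τ in (0 : ℝ)..t, g τ) := by
      rw [mul_assoc, ← Real.exp_add]
      have : -K * (∫ τ in (0 : ℝ)..t, g τ) + K * ∫ τ in (0 : ℝ)..t, g τ = 0 := by ring
      rw [this, Real.exp_zero, mul_one]
    rw [h7]
    have h8 : Real.exp (K * ∫ τ in (0 : ℝ)..t, g τ) ≤ Real.exp (K * G) :=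
      Real.exp_le_exp.2 (mul_le_mul_of_nonneg_left (hint t ht) hK0)
    exact mul_le_mul h1 h8 (Real.exp_pos _).le (hpos 0 le_rfl).1
  intro t ht
  rw [hKG]
  refine ⟨hfirst t ht, ?_⟩
  have hgy : ContinuousOn (fun t => g t * y t) (Ici 0) := hg.mul hyc
  have h1 := anti (fun t => y t + ν * (∫ τ in (0 : ℝ)..t, z τ) - K * ∫ τ in (0 : ℝ)..t, g τ * y τ)
    (fun t => d t + ν * z t - K * (g t * y t))
    (fun s hs => ((hy s hs).add ((prim z hz s hs).const_mul ν)).sub
      ((prim _ hgy s hs).const_mul K))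
    (fun s hs => by have := hdi s hs; linarith) t ht
  simp only [intervalIntegral.integral_same, mul_zero, add_zero, sub_zero] at h1
  have h2 : ∫ τ in (0 : ℝ)..t, g τ * y τ ≤ ∫ τ in (0 : ℝ)..t, g τ * (y 0 * Real.exp (K * G)) := by
    refine intervalIntegral.integral_mono_on ht (intble _ hgy t ht)
      ((intble g hg t ht).mul_const _) fun τ hτ => ?_
    exact mul_le_mul_of_nonneg_left (hfirst τ hτ.1) (hpos τ hτ.1).2.2
  rw [intervalIntegral.integral_mul_const] at h2
  have hM : 0 ≤ y 0 * Real.exp (K * G) := mul_nonneg (hpos 0 le_rfl).1 (Real.exp_pos _).le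
  have h3 : (∫ τ in (0 : ℝ)..t, g τ) * (y 0 * Real.exp (K * G)) ≤ G * (y 0 * Real.exp (K * G)) :=
    mul_le_mul_of_nonneg_right (hint t ht) hM
  have h4 := mul_le_mul_of_nonneg_left (h2.trans h3) hK0
  have h5 := (hpos t ht).1
  linarith

end Pool.Agent.W460.HD
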